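import Pool.Agent.Q36.GV.Sp

/-!
# Special varieties and the core of varieties dominated by products

Let `Y` be a projective manifold of dimension `d` with `p_g(Y) > 0` and `ν(Y) ≤ 0`, for instance an
abelian variety, a Calabi-Yau or hyperkähler manifold or a point, let `C 1, ..., C n` be irrational
curves, and `Y × C 1 × ... × C n ⇢ X` any dominant rational map of finite degree to a projective
manifold `X` (not necessarily a quotient by a group). For a general point `x` of `X` let `r_i` be the
number of different `i`-th coordinates of the points over `x` (`i = 0` is the coordinate in `Y`), and
for a set `Q` of indices let `r(Q)` be the number of the points over `x` which have the same `j`-th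
coordinates as a given one of them for all `j` outside `Q`. Let `c 0 = 0`, let `c i + 2` be at most the
gonality of `C i`, and assume that

* `2 r_i ≤ c i + 1` for all `i` in some set `B` (which may be empty), and
* for all `Q` disjoint from `B` the points over `x` are determined by their coordinates outside `Q`
  (`r(Q) = 1`), or `2 r(Q) - 1 ≤ ∑ j ∈ Q, c j`.

For instance, if all `C i` have gonality `γ > 2` and `d = 0`, any map of degree at most
`(n (γ - 2) + 1) / 2` with `r_i = r` for all `i` and `r(Q) ≤ (|Q| (γ - 2) + 1) / 2`.

The theorem. There is a fibration `X ⇢ I` with `dim I = h`, the number of the non-elliptic curves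
`C i`, such that

* the canonical map of `I` is generically finite; so `I` is of general type;
* `κ(X) = ν(X) = h`, and the quotients of pluricanonical forms of `X` are functions on `I`, so `X ⇢ I` is
  the Iitaka fibration;
* `I` is dominated by the product `N` of the non-elliptic curves, and the base change of `X ⇢ I` by
  `N ⇢ I` is birational to the product of `N`, of `Y` and of the elliptic curves `C i`. So the general
  fibre of `X ⇢ I` is birational to `F = Y × (product of the elliptic curves)`.

If `X` is special in the sense of Campana (no Bogomolov sheaf), then all `C i` are elliptic and the map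
`Y × C 1 × ... × C n ⇢ X` is birational. Since abelian varieties and points are special and potentially
dense, `X` is special if and only if it is birational to such a product, for `Y` abelian or a point, and
special `X` are potentially dense. In the other cases `X ⇢ I` is the core of `X`: its base is a variety of
general type, so that the potential density of `X` would contradict Lang's conjecture for `I`.

Proof. Exterior products of canonical forms of the factors are canonical forms of the product, and
their traces are canonical forms of `X`. If a vector field kills all their quotients, there is a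
relation between the values and the derivatives of the forms at the points of a general fibre. Hall's
theorem on the marriage problem and the gonality are used to isolate one point of the fibre and one
factor in this relation. This gives `h` algebraically independent quotients, `h` the number of the
non-elliptic curves, while sections on the product are expanded along the curves for `ν(X) ≤ h`. So
the quotients of the pluricanonical forms of `X` are functions on the product of the non-elliptic
curves, in which the functions of `X` define a subfield `K`. The conditions for `X` imply the same
conditions for the map of degree `[N : K]` from the product (with function field `N`) of the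
non-elliptic curves, and thus the canonical map of the base is generically finite.
-/

set_option autoImplicit false
set_option linter.overlappingInstances false

open FF IntermediateField Pool.Agent.W602.GT Pool.Agent.W619.TW

namespace Pool.Agent.Results.MP_9410e4_ag.CoreOfDominated

/-- Every nonconstant function on the curve with function field `F` has degree at least `γ`. -/
def GonalityGe (k F : Type) [Field k] [Field F] [Algebra k F] (γ : ℕ) : Prop :=
  ∀ b : F, Transcendental k b → γ ≤ Module.finrank k⟮b⟯ F

/-- The canonical map of the projective manifolds of dimension `n` with function field `K` has an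
image of dimension at least `h`: there are `h + 1` canonical forms whose ratios to the first one are
algebraically independent. For `h = 0`: `p_g > 0`. -/
def CanonicalImageGe (k K : Type) [Field k] [Field K] [Algebra k K] (n h : ℕ) : Prop :=
  ∃ ω : Fin (h + 1) → (Fin n → Derivation k K K) → K,
    (∀ l, IsSec k K n (fun _ => False) {1} 1 0 (ω l)) ∧
    ∃ D, (∀ l, ω l D ≠ 0) ∧ AlgebraicIndependent k (fun l : Fin h => ω l.succ D / ω 0 D)

/-- The quotients of two sections of the same multiple of the canonical class of the projective
manifolds of dimension `n` with function field `L` belong to the subfield `K`. -/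
def ContainsQuotients {k L : Type} [Field k] [Field L] [Algebra k L] (n : ℕ)
    (K : IntermediateField k L) : Prop :=
  ∀ (m : ℕ) (ω ω' : (Fin n → Derivation k L L) → L), IsSec k L n (fun _ => False) {1} m 0 ω →
    IsSec k L n (fun _ => False) {1} m 0 ω' → ∀ D, ω D ≠ 0 → ω' D / ω D ∈ K

/-- The function field of the product of the curves `W 1, ..., W n` which are not elliptic. -/
def nonellipticPart {k M : Type} [Field k] [Field M] [Algebra k M] {n : ℕ}
    (W : Fin (n + 1) → IntermediateField k M) : IntermediateField k M :=
  ⨆ i : {i : Fin n // ¬ IsElliptic (W i.succ)}, W i.1.succ

section

variable {k : Type} (L : Type) {M : Type} [Field k] [Field L] [Field M] [Algebra k L] [Algebra k M]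
  [Algebra L M]

/-- The number of different coordinates in the factor with function field `F` on a general fibre of
`Z ⇢ X`: the degree over `X` of the image of `Z` in the product of `X` and the factor. -/
noncomputable def coordinates (F : IntermediateField k M) : ℕ :=
  Module.finrank L (IntermediateField.adjoin L (F : Set M))

/-- The number of the points of a general fibre of `Z ⇢ X` with the same coordinates outside `Q` as a
given one: the degree of `Z` over its image in the product of `X` and the factors `j ∉ Q`. -/
noncomputable def agreeing {n : ℕ} (W : Fin n → IntermediateField k M) (Q : Finset (Fin n)) : ℕ :=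
  Module.finrank (IntermediateField.adjoin L {z : M | ∃ j, j ∉ Q ∧ z ∈ W j}) M

end

/-- **The core of varieties dominated by products.** Let `W 0` be the function field of a projective
manifold `Y` of dimension `d` with `p_g(Y) > 0` and `ν(Y) ≤ 0`, `W i` (`0 < i ≤ n`) the function fields of
curves of gonality at least `c i + 2` (`c i = 0` for elliptic curves and `c 0 = 0`), `M` the function field
of the product, of dimension `d + n`, and `L` the function field of a projective manifold `X` with a
dominant rational map of finite degree from the product to `X`. Let `B` be a set of indices such that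
twice the number of the `i`-th coordinates on a general fibre is at most `c i + 1` for `i ∈ B`, and
assume that for every set `Q` of indices disjoint from `B` the number `r(Q)` of the points of a general
fibre with the same coordinates outside `Q` as a given one satisfies `r(Q) = 1` or
`2 r(Q) - 1 ≤ ∑ j ∈ Q, c j`. (1) If `X` is special, then all the curves are elliptic and
`Y × C 1 × ... × C n ⇢ X` is birational. (2) The dimension of the canonical image of `X` is at least `h`
and `ν(X) ≤ h`, so that `κ(X) = ν(X) = h`, where `h` is the number of the non-elliptic curves. There is a fibration `X ⇢ I`, with function field `K` of the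
base algebraically closed in `L`, such that `dim I = h`, the canonical map of `I` is generically finite, all quotients of pluricanonical forms of `X` belong to `K`,
and for the function field `N` of the product of the non-elliptic curves, of transcendence degree `h`:
`K ⊆ N` and `L N = M`. -/
theorem result {k L M : Type} [Field k] [CharZero k] [IsAlgClosed k] [Field L] [Field M]
    [Algebra k L] [Algebra k M] [Algebra L M] [IsScalarTower k L M] [FiniteDimensional L M]
    (d n : ℕ) (hM : Algebra.trdeg k M = (d + n : ℕ)) (W : Fin (n + 1) → IntermediateField k M)
    (hY : Algebra.EssFiniteType k (W 0)) (hd : Algebra.trdeg k (W 0) = d)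
    (hC : ∀ i : Fin n, IsFF k (W i.succ)) (hsup : ⨆ i, W i = ⊤)
    (hY1 : CanonicalImageGe k (W 0) d 0) (hY2 : NumLe k (W 0) d (fun _ => False) 0)
    (c : Fin (n + 1) → ℕ) (hc0 : c 0 = 0) (hc : ∀ i : Fin n, IsElliptic (W i.succ) → c i.succ = 0)
    (hγ : ∀ i : Fin n, GonalityGe k (W i.succ) (c i.succ + 2))
    (B : Finset (Fin (n + 1))) (hB : ∀ i ∈ B, 2 * coordinates L (W i) ≤ c i + 1)
    (hQ : ∀ Q : Finset (Fin (n + 1)), Disjoint Q B →
      agreeing L W Q = 1 ∨ 2 * agreeing L W Q ≤ 1 + ∑ j ∈ Q, c j) :
    (Special k L (d + n) (fun _ => False) →
      (∀ i : Fin n, IsElliptic (W i.succ)) ∧ Function.Bijective (algebraMap L M)) ∧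
    CanonicalImageGe k L (d + n) {i : Fin n | ¬ IsElliptic (W i.succ)}.ncard ∧
    NumLe k L (d + n) (fun _ => False) {i : Fin n | ¬ IsElliptic (W i.succ)}.ncard ∧
    ∃ K : IntermediateField k L, (∀ x : L, IsAlgebraic K x → x ∈ K) ∧
      Algebra.EssFiniteType k K ∧
      Algebra.trdeg k K = ({i : Fin n | ¬ IsElliptic (W i.succ)}.ncard : ℕ) ∧
      CanonicalImageGe k K {i : Fin n | ¬ IsElliptic (W i.succ)}.ncard
        {i : Fin n | ¬ IsElliptic (W i.succ)}.ncard ∧
      ContainsQuotients (d + n) K ∧
      (∀ x ∈ K, algebraMap L M x ∈ nonellipticPart W) ∧
      Algebra.trdeg k (nonellipticPart W) = ({i : Fin n | ¬ IsElliptic (W i.succ)}.ncard : ℕ) ∧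
      IntermediateField.adjoin L (nonellipticPart W : Set M) = ⊤ := by
  have hessM : Algebra.EssFiniteType k M := Q36.GV.ess_supS W hsup
  have hessL : Algebra.EssFiniteType k L := Q36.SD.ess_below (K := M)
  obtain ⟨K, h1, h2, h3, h4, h5, h6, h7, h8, h9⟩ :=
    Q36.GV.core0 (L := L) W hd hM hsup hY1 hY2 hc0 hγ hc B hB hQ
  have h2γ : ∀ i : Fin n, ∀ b : W i.succ, Transcendental k b →
      2 ≤ Module.finrank k⟮b⟯ (W i.succ) := fun i b hb => le_trans (by omega) (hγ i b hb)
  have hirr : ∀ i : Fin n, ¬ ∃ t : W i.succ, k⟮t⟯ = ⊤ := fun i => Q36.HB.irr_of_gon (h2γ i)
  have h10 := Q36.GV.imageYC (L := L) W hd hM (Q36.GV.alg_of_sup' W hsup) (Or.inl hc0) hY1 hγ B hB hQ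
  have h11 := Q36.GV.numYC (L := L) W hd hM hsup hirr hY2
  rw [zero_add] at h10 h11
  exact ⟨h9, h10, h11, K, h1, h2, h3, h4, h5, h6, h7, h8⟩

end Pool.Agent.Results.MP_9410e4_ag.CoreOfDominated
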