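import Pool.Agent.Q64.FS.Spd

/-!
# Zariski-dense flat sequences of rational points on surfaces

Let `k` be a countable subfield of `ℂ`, for instance a number field, and let `σ : k → F` be an
embedding in a locally compact normed field of characteristic zero (a place of `k`). A sequence of
points over `k` is `ε`-flat if the absolute values of its `i`-th differences at `0` are at most `ε i`
for all large `i`.

There is one positive function `ε` with the following properties, for all surfaces over `k`.

1. If a quasi-projective surface `X - D` over `k` (`D` the section of `X` by a hypersurface over `k`,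
possibly empty) has a Zariski-dense `ε`-flat sequence of points over `k`, then `X - D` is special in
the sense of Campana, `X` is covered by rational curves and all logarithmic pluricanonical forms are
zero.

2. If `g1 / g0` is the quotient of two sections of a power of a subsheaf of rank one of a sheaf of
logarithmic forms, then every nonconstant `ε`-flat sequence lies in the closure of one polynomial
curve in `X - D` or in one level set of `g1 / g0`.
-/

set_option autoImplicit false

namespace Pool.Agent.Results.MP_9410e4_ag.FlatPointsOnSurfaces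

open MvPolynomial Pool.Agent.TH143.GT Pool.Agent.W602.GT Pool.Agent.W603.GR Pool.Agent.W603.PV
open Pool.Agent.Q64.LC Pool.Agent.Q64.FS

/-- The surface `X - D` is special, `X` is covered by rational curves, and there are no nonzero
logarithmic pluricanonical forms. -/
def SpecialCovered {n : ℕ} (Q : MvPolynomial (Fin (n + 1)) ℂ) (q : ℕ) (K : Type) [Field K]
    [Algebra ℂ K] (y : Fin (n + 1) → K) : Prop :=
  Special ℂ K 2 (OffQ Q q y) ∧ Covered K ∧
    ∀ N : ℕ, 0 < N → ∀ ω : (Fin 2 → Derivation ℂ K K) → K, LogSec ℂ K 2 N (OffQ Q q y) ω → ω = 0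

/-- There is a sequence of points over `k` of the variety of `p` off `Q = 0`, given by coordinate
vectors on which `Q` has a constant nonzero value, which is flat for `σ` with bound `ε` and
Zariski dense. -/
def FlatDense (k : Subfield ℂ) {F : Type} [NormedField F] (σ : k →+* F) (ε : ℕ → ℝ) {n : ℕ}
    (p : Ideal (MvPolynomial (Fin (n + 1)) ℂ)) (Q : MvPolynomial (Fin (n + 1)) ℂ) : Prop :=
  ∃ x : ℕ → Fin (n + 1) → k, (∀ m, ∀ H ∈ p, eval (fun j => (x m j : ℂ)) H = 0) ∧
    (∃ c : ℂ, c ≠ 0 ∧ ∀ m, eval (fun j => (x m j : ℂ)) Q = c) ∧ FlatAt σ ε x ∧ SeqDense k p x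

theorem result (k : Subfield ℂ) [Countable k] (F : Type) [NormedField F] [ProperSpace F]
    [CharZero F] (σ : k →+* F) :
    ∃ ε : ℕ → ℝ, (∀ s, 0 < ε s) ∧
      ∀ (n : ℕ) (p : Ideal (MvPolynomial (Fin (n + 1)) ℂ)) (Q : MvPolynomial (Fin (n + 1)) ℂ)
        (q : ℕ), IsHomog p → Q.IsHomogeneous q → OverK k p → CoeffK k Q →
        ∀ (K : Type) [Field K] [Algebra ℂ K] (y : Fin (n + 1) → K), FunField p Q K 2 y →
          (FlatDense k σ ε p Q → SpecialCovered Q q K y) ∧
          (∀ (d : ℕ) (g1 g0 : MvPolynomial (Fin (n + 1)) ℂ), g1.IsHomogeneous d →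
            g0.IsHomogeneous d → CoeffK k g1 → CoeffK k g0 → g0 ∉ p →
            SheafQuot K 2 (OffQ Q q y) (W602.GT.val y g1 / W602.GT.val y g0) →
            ∀ x, SeqIn k p Q x → FlatAt σ ε x → SeqInPoly k p Q x ∨ SeqConst k g1 g0 x) := by
  obtain ⟨ε, h1, h2⟩ := flat_special k σ
  refine ⟨ε, h1, ?_⟩
  intro n p Q q hp hQ hpk hQk K _ _ y hy
  refine ⟨fun hfd => ?_, fun d g1 g0 hg1 hg0 hk1 hk0 hg0p hr x hx hfl =>
    (h2 n p Q q hp hQ hpk hQk K y hy x hx hfl).2.1 d g1 g0 hg1 hg0 hk1 hk0 hg0p hr⟩
  obtain ⟨x, hx1, hx2, hfl, hd⟩ := hfd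
  obtain ⟨e1, -, e3⟩ := h2 n p Q q hp hQ hpk hQk K y hy x
    ⟨hx1, hx2, nc_of_dense hy (by norm_num) hd⟩ hfl
  have h6 : ¬ NonNeg Q q 2 y := fun hnn => not_seqInPoly hy hd (e3 hnn)
  unfold NonNeg at h6
  push Not at h6
  exact ⟨e1 hd, h6.1, h6.2⟩

end Pool.Agent.Results.MP_9410e4_ag.FlatPointsOnSurfaces
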