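import Mathlib
import Pool.Agent.Q103.RP.Stm

/-!
# Families of maps over special and potentially dense varieties

`X` is an integral projective variety over the number field `k`, a subfield of the complex numbers. It is given
by its function field `K` and the homogeneous coordinates `x` of its generic point; `coords k x = ⊤` says that
`K` is generated by the ratios of the coordinates. `IsPt x a` (`Pool/Agent/Q103/RP/Spc.lean`): the point with
the homogeneous coordinates `a`, in an extension `L` of `k`, lies on `X` (all forms over `k` which vanish at
`x` vanish at `a`).

`f = p / q` is a rational map of the projective line over `K` of degree `d` (a family of rational maps over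
an open subset of `X`), and `prePer d p q` are its preperiodic points in `P^1(K)`.

`ModuliFibration d p q E` (`Pool/Agent/Q103/VR/Stm.lean`): `E` is the function field of a variety `Y` with a
dominant rational map `X ⇢ Y` with irreducible general fibres (`E` is algebraically closed in `K`), `f` is
defined over `E` up to conjugation (`DefinedOver`), and even conjugate over `K` to a map over `E`, all the
preperiodic points of `f` in `P^1(K)` come from points of `P^1(E)`, and `E` is algebraic over every field over
which `f` is defined up to conjugation. `IsVariation k d p q v`: `v` is the least transcendence degree of a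
field over which `f` is defined up to conjugation, the variation of `f`.

`GeneralType k E v`: `Y` is of general type: for some `N > 0` there are `N`-canonical forms of the function
field, regular at all prime divisors of all models, with `v` algebraically independent ratios.

`cfv d p q`: the coefficients of `f`. They are, up to a common factor `t`, the values at `x` of forms `F s`
of degree `κ`; so the values `F s (a)` are the coefficients of the specialisation `f_a` of `f` at `a`.

The rational map `X ⇢ Y` is given by forms `g 0, …, g r` of the same degree such that the ratios
`g j (x) / g 0 (x)` are in `E`. `lowVals k x R F g D T` (`Pool/Agent/Q103/RP/Main.lean`): the set of the images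
`(g 0 (a) : … : g r (a))` of the points `a` of `X` over all number fields `L` of degree at most `D` (over the
rational numbers) which contain `k`, not on `R = 0`, at which the values of the forms `F s` have absolute
height at most `T` (`mulHeight ≤ T ^ [L : ℚ]`), as points of the complex projective space, by all embeddings
of `L` over `k`. For `F s = X s` these are the images of the points `a` with absolute height `H(a) ≤ T`.

Theorem: if `f` has at least `n ≥ B₀` preperiodic points in `P^1(K)`, then the base `Y` of its moduli
fibration is a point or a variety of general type, of dimension the variation of `f`, and there is one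
proper closed subset `Z = {R = 0}` of `X` such that for all degrees `D` and all `ε > 0` with `B D ε ≤ n` the
images in `Y` of the points of `X - Z` over all number fields of degree at most `D` together are sparse: at
most `C T ^ ε` come from points with `H(f_a) ≤ T`, and at most `C T ^ (κ ε)` from points with `H(a) ≤ T`.

The last part says that there are such `X` over each number field, for each `n`, of dimension `2 d - 2`, with
maximal variation (`ManyPrep`) and with `κ = 1`.

Proof. The preperiodic points of `f` can be specialised at all points outside a proper closed subset, so
`f_a` has at least `n` preperiodic points in `P^1(L)`. By the theorem of helper256 and others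
(`MP_90787a_nt.FewExceptionalClasses`) the maps of degree `d` over all number fields of degree at most `D`, of
absolute height at most `T` and with so many preperiodic points lie in `C T ^ ε` conjugacy classes over the
complex numbers. The cross ratios of the preperiodic points are invariants of the class, and `E` is
algebraic over the field of the cross ratios. General type: projects GT of helper41, EC and VR of helper103.
-/

set_option autoImplicit false

namespace Pool.Agent.Results.MP_9410e4_ag.ImagesOfAlgebraicPoints

open FF Polynomial
open Pool.Agent.W602.GT
open Pool.Agent.Q103.EC (ManyPrep prePer)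
open Pool.Agent.Q103.VR (ModuliFibration IsVariation)
open Pool.Agent.Q103.RP (cfv lowVals)

/-- The base of the moduli fibration of a map with many preperiodic points over the function field of a
projective variety over a number field is a point or a variety of general type, and the images in it of
the points of bounded degree are sparse. -/
theorem result (d : ℕ) (hd : 2 ≤ d) :
    (∃ (B₀ : ℕ) (B : ℕ → ℝ → ℕ), ∀ (k : Type) [Field k] [NumberField k] [Algebra k ℂ]
      (K : Type) [Field K] [Algebra k K] (M : ℕ) (x : Fin (M + 1) → K), x ≠ 0 → coords k x = ⊤ →
      ∀ w : ℕ, Algebra.trdeg k K = w → ∀ (n : ℕ) (p q : K[X]), B₀ ≤ n → IsCoprime p q →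
      max p.natDegree q.natDegree = d → (n : ℕ∞) ≤ (prePer d p q).encard →
      ∃ (E : IntermediateField k K) (v : ℕ), ModuliFibration d p q E ∧ v ≤ w ∧
        Algebra.trdeg k E = v ∧ IsVariation k d p q v ∧ (1 ≤ v → GeneralType k E v) ∧
        ∀ (κ : ℕ) (F : Fin 2 × Fin (d + 1) → MvPolynomial (Fin (M + 1)) k) (t : K),
        (∀ s, (F s).IsHomogeneous κ) → t ≠ 0 → (∀ s, cfv d p q s = t * val x (F s)) →
        ∀ (r e : ℕ) (g : Fin (r + 1) → MvPolynomial (Fin (M + 1)) k),
        (∀ j, (g j).IsHomogeneous e) → val x (g 0) ≠ 0 → (∀ j, val x (g j) / val x (g 0) ∈ E) →
        ∃ R : MvPolynomial (Fin (M + 1)) k, IsForm R ∧ val x R ≠ 0 ∧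
          ∀ (D : ℕ) (ε : ℝ), 0 < ε → B D ε ≤ n → ∃ C : ℝ, ∀ T : ℝ, 1 ≤ T →
          ((lowVals k x R F g D T).Finite ∧ ((lowVals k x R F g D T).ncard : ℝ) ≤ C * T ^ ε) ∧
          (lowVals k x R MvPolynomial.X g D T).Finite ∧
            ((lowVals k x R MvPolynomial.X g D T).ncard : ℝ) ≤ C * T ^ (κ * ε)) ∧
    ∀ (k : Type) [Field k] [NumberField k] (n : ℕ), 3 ≤ n →
      ∃ (K : Type) (_ : Field K) (_ : Algebra k K) (p q : K[X]), ManyPrep k d n p q ∧
        Algebra.trdeg k K = (2 * d - 2 : ℕ) ∧
        ∃ (M : ℕ) (x : Fin (M + 1) → K), x ≠ 0 ∧ coords k x = ⊤ ∧
        ∃ F : Fin 2 × Fin (d + 1) → MvPolynomial (Fin (M + 1)) k, (∀ s, (F s).IsHomogeneous 1) ∧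
          ∀ s, cfv d p q s = val x (F s) := by
  exact ⟨Pool.Agent.Q103.RP.sparse_fib d hd,
    fun k _ _ n hn => Pool.Agent.Q103.RP.exists_over k d n hd hn⟩

end Pool.Agent.Results.MP_9410e4_ag.ImagesOfAlgebraicPoints
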