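import Pool.Agent.Q33.UR.SeqG

/-!
MP_9410e4_ag: varieties with Zariski-dense sequences of points given by linear recurrences, and
potential density.
-/

set_option autoImplicit false

namespace Pool.Agent.Results.MP_9410e4_ag.RecursiveSequences

open MvPolynomial Filter Pool.Agent.TH143.GT Pool.Agent.Q33.UR
open Pool.Agent.W602.GT (IsForm)

/-- Let `k` be a subfield of the complex numbers (for instance, a number field) and `X` the
projective variety over `k` given by the forms `F i`; let `X (ℂ)` be irreducible with the homogeneous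
ideal `p`, the function field `K`, the dimension `w` and the generic point `y`.

`SeqRing B`: `B` is a ring of complex sequences which contains the constants, finitely generated,
closed under the shift, and each of its elements vanishes for all large `n` or only for finitely many
`n`. `TrdegLeS B c`: any `c + 1` elements of `B` are algebraically dependent over the complex
numbers, for large `n`. `LinSeq B f`: the sequence of vectors `f` is, for large `n`,
`f (n) = M (n) u (n)`, where `s (n) u (n + 1) = A (n) u (n)` with `s`, `A`, `M` over `B`, `s (n) ≠ 0`,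
`det A (n) ≠ 0`. `DenseSeq p f`: each form which vanishes at almost all `f (n)` vanishes on `X`.
`NonDegS B p f`: each form with coefficients in `B` which vanishes at `f (n)` for large `n` vanishes
on `X` for large `n`. `IndepSeq B g`: there is no homogeneous relation with coefficients in `B`
between the coordinates of `g (n)` for large `n`. `UniAt F j x`: there is a polynomial map `W` from an
affine space to `X` with `x` in its image and no homogeneous relation between the coordinates `j` of
`W`. `PtsIndep F j`: for some finite extension `L` of `k` there is no homogeneous relation between the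
coordinates `j` on `X (L)`. `UniFin k y`: (a). `ExpPts F p`: (b).

(0) Examples: `B = ℂ[n]` (`f` is `P`-recursive), `c = 1`; `B = ℂ` (linear recurrences with constant
coefficients), `c = 0`.

(1) Let `f` be a sequence in `X (ℂ)`, linear over `B` and Zariski-dense, and `w = e + c`. There are
`e + 1` coordinates such that: for infinitely many `n` there is a polynomial map `W` from an affine
space to `X` with `f (n)` in its image and with `e` algebraically independent ratios of these
coordinates, that is, a unirational subvariety of codimension at most `c` through `f (n)`; for some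
finite extension `L` of `k` there is no homogeneous relation between these coordinates on `X (L)`,
that is, the Zariski closure of `X (L)` has codimension at most `c`.

(2) The following are equivalent: (a) `X` is unirational over some finite extension `L` of `k`;
(b) for some finite extension `L` of `k` there is a sequence of points `x (n)` in `X (L)` with
homogeneous coordinates of the form `∑ c β ^ n`, `c` in `L`, `β` positive integers, such that each
form with coefficients in `ℂ[n]` which vanishes at `x (n)` for infinitely many `n` vanishes on `X` for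
all `n`; (c) there is a sequence in `X (ℂ)`, Zariski-dense and given by a linear recurrence with
constant coefficients; (d) there is a `P`-recursive sequence `f` in `X (ℂ)` such that each form with
coefficients in `ℂ[n]` which vanishes at `f (n)` for all large `n` vanishes on `X` for all large `n`;
(e) for some `B` there is a sequence in `X (ℂ)`, linear over `B`, with `dim X` ratios of coordinates
algebraically independent over `B`. -/
theorem result {k : Type} [Field k] [Algebra k ℂ] {N : ℕ} {ι : Type}
    (F : ι → MvPolynomial (Fin (N + 1)) k) (hF : ∀ i, ∃ d, (F i).IsHomogeneous d)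
    (p : Ideal (MvPolynomial (Fin (N + 1)) ℂ)) (hprime : p.IsPrime)
    (hp : ∀ H, H ∈ p ↔ ∀ x, (∀ i, aeval x (F i) = 0) → eval x H = 0)
    (K : Type) [Field K] [Algebra ℂ K] (w : ℕ) (y : Fin (N + 1) → K) (hy : FunField p 1 K w y) :
    -- (0)
    (SeqRing polyS ∧ TrdegLeS polyS 1 ∧ SeqRing ⊥ ∧ TrdegLeS ⊥ 0) ∧
    -- (1)
    (∀ (B : Subalgebra ℂ (ℕ → ℂ)) (c e : ℕ) (f : ℕ → Fin (N + 1) → ℂ), SeqRing B → TrdegLeS B c →
      w = e + c → (∀ n i, aeval (f n) (F i) = 0) → LinSeq B f → DenseSeq p f →
      ∃ j : Fin (e + 1) → Fin (N + 1),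
        (∃ᶠ n in atTop, f n (j 0) ≠ 0 ∧ UniAt F j (f n)) ∧ PtsIndep F j) ∧
    -- (2)
    [ -- (a)
      UniFin k y,
      -- (b)
      ExpPts F p,
      -- (c)
      ∃ f : ℕ → Fin (N + 1) → ℂ, (∀ n i, aeval (f n) (F i) = 0) ∧ LinSeq ⊥ f ∧ DenseSeq p f,
      -- (d)
      ∃ f : ℕ → Fin (N + 1) → ℂ, (∀ n i, aeval (f n) (F i) = 0) ∧ LinSeq polyS f ∧
        NonDegS polyS p f,
      -- (e)
      ∃ (B : Subalgebra ℂ (ℕ → ℂ)) (f : ℕ → Fin (N + 1) → ℂ), SeqRing B ∧
        (∀ n i, aeval (f n) (F i) = 0) ∧ LinSeq B f ∧
        ∃ j : Fin (w + 1) → Fin (N + 1), IndepSeq B fun n l => f n (j l)].TFAE := by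
  have hmap : ∀ (x : Fin (N + 1) → ℂ) i, eval x (map (algebraMap k ℂ) (F i)) = aeval x (F i) :=
    fun x i => by rw [eval_map]; rfl
  have hXp : ∀ {f : ℕ → Fin (N + 1) → ℂ}, (∀ n i, aeval (f n) (F i) = 0) →
      ∀ n, ∀ H ∈ p, eval (f n) H = 0 := fun h n H hH => (hp H).1 hH _ (h n)
  have hrel : ∀ (d : ℕ) (H : MvPolynomial (Fin (N + 1)) ℂ), H.IsHomogeneous d →
      aeval y H = 0 → ∀ t : Fin (N + 1) → ℂ, (∀ i, aeval t (F i) = 0) → eval t H = 0 :=
    fun d H hH h0 => (hp H).1 (hy.mem H ⟨d, hH⟩ h0)
  refine ⟨⟨polyS_ring, trdegLeS_poly, botS_ring, trdegLeS_bot⟩, ?_, ?_⟩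
  · intro B c e f hB hc hw hX hlin hd
    subst hw
    obtain ⟨j, hj⟩ := codim_seq hB hc hprime hy hd
    have h := uni_seq hB hlin j hj
    refine ⟨j, h.mono fun n hn => ⟨hn.1, ?_⟩, ?_⟩
    · obtain ⟨m, W, t0, h1, h2, h3⟩ := hn.2.param hn.1
      refine ⟨m, W, t0, h1, fun t i => ?_, h3⟩
      obtain ⟨d, hd⟩ := hF i
      have h4 := h2 (map (algebraMap k ℂ) (F i)) ⟨d, hd.map _⟩ (Eventually.of_forall fun s => by
        rw [hmap]
        exact hX s i)
      have h5 := MvPolynomial.comp_aeval_apply (f := W)
        (aeval t : MvPolynomial (Fin m) ℂ →ₐ[ℂ] ℂ) (map (algebraMap k ℂ) (F i))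
      rw [h4, map_zero] at h5
      rw [← hmap]
      exact h5.symm
    · obtain ⟨n, h1, h2⟩ := h.exists
      obtain ⟨L, hL, m, W, hW, -, -, -, hno⟩ := descend_cover F hF
        (fun i => Eventually.of_forall fun s => by rw [hmap]; exact hX s i) h1 h2
      refine ⟨L, hL, fun d P hP h0 => ?_⟩
      by_contra hP0
      have h3 : aeval (fun i => map (algebraMap L ℂ) (W i)) (rename j P) ≠ 0 := by
        rw [aeval_rename]
        exact fun h4 => hP0 (hno d P hP h4)
      have hj0 : W (j 0) ≠ 0 := by
        intro h4
        have h5 := hno 1 (X 0) (isHomogeneous_X _ _) (by rw [aeval_X, h4, map_zero])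
        exact X_ne_zero (R := ℂ) (0 : Fin (e + 1)) h5
      obtain ⟨x, hx, hxP⟩ := exists_pt hW hj0 h3
      apply hxP
      rw [eval_rename]
      exact h0 x hx
  · have key : ∀ (B : Subalgebra ℂ (ℕ → ℂ)) (f : ℕ → Fin (N + 1) → ℂ) (j : Fin (w + 1) → Fin (N + 1)),
        SeqRing B → (∀ n i, aeval (f n) (F i) = 0) → LinSeq B f →
        (IndepSeq B fun n l => f n (j l)) →
        ∃ L : IntermediateField k ℂ, FiniteDimensional k L ∧ ∃ (m : ℕ)
          (W : Fin (N + 1) → MvPolynomial (Fin m) L), ∀ H : MvPolynomial (Fin (N + 1)) ℂ,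
            IsForm H → (aeval y H = 0 ↔ aeval (fun i => map (algebraMap L ℂ) (W i)) H = 0) := by
      intro B f j hB hX hlin hind
      obtain ⟨hy0, hbas⟩ := full_basis_seq hy (hXp hX) hind
      obtain ⟨n, h1, h2⟩ := (uni_seq hB hlin j hind).exists
      obtain ⟨L, hL, m, W, hW, -, h3, h4, -⟩ := descend_cover F hF
        (fun i => Eventually.of_forall fun s => by rw [hmap]; exact hX s i) h1 h2
      refine ⟨L, hL, m, W, fun H hH => ⟨fun h0 => ?_, fun h0 => ?_⟩⟩
      · obtain ⟨d, hd⟩ := hH
        exact h3 d H hd (hrel d H hd h0)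
      · obtain ⟨d, hd⟩ := hH
        exact h4 rfl hy0 hbas hrel d H hd h0
    tfae_have 1 → 2 := by
      rintro ⟨L, hL, m, W, hWr⟩
      obtain ⟨i0, hi0⟩ := Function.ne_iff.1 hy.sub.ne
      have hFp : ∀ i, map (algebraMap k ℂ) (F i) ∈ p := fun i => (hp _).2 fun x hx => by
        rw [hmap]
        exact hx i
      have hW : ∀ i, aeval W (F i) = 0 := by
        intro i
        obtain ⟨d, hd⟩ := hF i
        have h1 := (hWr _ ⟨d, hd.map _⟩).1 (hy.sub.mem _ (hFp i))
        rw [aeval_map_algebraMap] at h1
        apply MvPolynomial.map_injective (algebraMap L ℂ) (algebraMap L ℂ).injective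
        rw [map_zero, ← h1]
        exact MvPolynomial.comp_aeval_apply (f := W)
          (MvPolynomial.mapAlgHom (IsScalarTower.toAlgHom k L ℂ) :
            MvPolynomial (Fin m) L →ₐ[k] MvPolynomial (Fin m) ℂ) (F i)
      have hW0 : W i0 ≠ 0 := by
        intro h0
        apply hi0
        have h9 := (hWr (X i0) ⟨1, isHomogeneous_X _ _⟩).2 (by rw [aeval_X, h0, map_zero])
        rwa [aeval_X] at h9
      obtain ⟨r, c, β, h1, h2, h3, h4⟩ := exists_expseq hW hW0
      refine ⟨L, hL, r, c, β, fun n i => ∑ a, c i a * (β a : ℂ) ^ n, h1, h2, fun n i => rfl, h3,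
        fun d H hH h5 n => ?_⟩
      exact hy.mem _ ⟨d, hH.map _⟩ ((hWr _ ⟨d, hH.map _⟩).2 (h4 H h5 n))
    tfae_have 2 → 3 := by
      rintro ⟨L, hL, r, c, β, x, h1, h2, h3, h4, h5⟩
      have hx : x = fun n i => ∑ a, c i a * (β a : ℂ) ^ n := by
        funext n i
        exact h3 n i
      refine ⟨x, fun n i => (h4 n).2.2 i, ?_, ?_⟩
      · rw [hx]
        exact linSeq_of_exp c (fun a => (β a : ℂ)) fun a => Nat.cast_ne_zero.2 (h2 a).ne'
      · rintro H ⟨d, hH⟩ hHp h6
        apply hHp
        have hid : ∀ n, (evS polyS n).comp (algebraMap ℂ polyS) = RingHom.id ℂ := by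
          intro n
          ext t
          rfl
        have h7 := h5 d (map (algebraMap ℂ polyS) H) (hH.map _) (by
          apply Eventually.frequently
          filter_upwards [h6] with n hn
          rw [eval₂_map, hid]
          by_contra h8
          exact hn h8) 0
        rwa [MvPolynomial.map_map, hid, MvPolynomial.map_id] at h7
    tfae_have 3 → 5 := by
      rintro ⟨f, h1, h2, h3⟩
      obtain ⟨j, hj⟩ := full_of_dense hy h3
      exact ⟨⊥, f, botS_ring, h1, h2, j, hj⟩
    tfae_have 2 → 4 := by
      rintro ⟨L, hL, r, c, β, x, h1, h2, h3, h4, h5⟩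
      have hx : x = fun n i => ∑ a, c i a * (β a : ℂ) ^ n := by
        funext n i
        exact h3 n i
      refine ⟨x, fun n i => (h4 n).2.2 i, ?_, fun d H hH h6 =>
        Eventually.of_forall (h5 d H hH h6.frequently)⟩
      rw [hx]
      exact linSeq_of_exp c (fun a => (β a : ℂ)) fun a => Nat.cast_ne_zero.2 (h2 a).ne'
    tfae_have 4 → 5 := by
      rintro ⟨f, h1, h2, h3⟩
      obtain ⟨j, hj⟩ := full_of_rel hy h3
      exact ⟨polyS, f, polyS_ring, h1, h2, j, hj⟩
    tfae_have 5 → 1 := by
      rintro ⟨B, f, hB, h1, h2, j, hj⟩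
      exact key B f j hB h1 h2 hj
    tfae_finish

end Pool.Agent.Results.MP_9410e4_ag.RecursiveSequences
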